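import Pool.Agent.H13.MA.Stmts

/-!
Modules SEQ, INJW, WF: transfinite choice of length the first uncountable ordinal, facts about
this ordinal.
-/

set_option linter.unusedVariables false
set_option synthInstance.maxSize 100000

namespace SW

section
variable {M : Type} [SetStr M] [ZF M]

theorem seq_img_congr {f g : M → M} (hf : Fn1 f) (hg : Fn1 g) {a : M}
    (h : ∀ x, E x a → f x = g x) : img a f = img a g := by
  refine ext fun y => ?_
  rw [mem_img' hf, mem_img' hg]
  constructor
  · rintro ⟨x, hx, rfl⟩
    exact ⟨x, hx, h x hx⟩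
  · rintro ⟨x, hx, rfl⟩
    exact ⟨x, hx, (h x hx).symm⟩

end

theorem ma_seq (hac : ACFStmt) (hcb : CBTStmt) : SEQStmt := by
  intro M _ _ w X P hw hP hX
  obtain ⟨g, hg⟩ := hac M X
  have cb := hcb M
  let F : M → M → M := fun a h => app g (sep X (fun b : M => P (img a (fun u : M => app h u)) b))
  have hF : Fn2 F := by
    show Fn2 (fun a h : M => app g (sep X (fun b : M => P (img a (fun u : M => app h u)) b)))
    infer_instance
  let V : M → M := fun a => mrec F a
  have hV : Fn1 V := mrec_df
  have hVeq : ∀ a, V a = app g (sep X (fun b : M => P (img a V) b)) := by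
    intro a
    have h1 : V a = F a (gr a V) := mrec_eq hF a
    have h2 : img a (fun u : M => app (gr a V) u) = img a V :=
      seq_img_congr inferInstance hV (fun x hx => app_gr hV hx)
    rw [h1]
    show app g (sep X (fun b : M => P (img a (fun u : M => app (gr a V) u)) b)) = _
    rw [h2]
  have hsub : ∀ a, E a w → Sub a w := fun a ha => hw.1.sub_of_mem ha
  have key : ∀ a, E a w → E (V a) X ∧ P (img a V) (V a) := by
    intro a
    refine mem_induction (C := fun a : M => E a w → E (V a) X ∧ P (img a V) (V a))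
      inferInstance ?_ a
    intro a ih ha
    have h1 : Sub (img a V) X := by
      intro z hz
      rw [mem_img' hV] at hz
      obtain ⟨x, hx, rfl⟩ := hz
      exact (ih x hx (hsub a ha x hx)).1
    have h2 : Cb (img a V) := cb.img V hV (hw.2.2 a ha)
    obtain ⟨b, hb, hPb⟩ := hX _ h1 h2
    have h3 : E (V a) (sep X (fun b : M => P (img a V) b)) := by
      rw [hVeq a]
      refine hg _ (fun z hz => ?_) ⟨b, ?_⟩
      · rw [mem_sep' inferInstance] at hz
        exact hz.1
      · rw [mem_sep' inferInstance]
        exact ⟨hb, hPb⟩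
    rw [mem_sep' inferInstance] at h3
    exact h3
  refine ⟨gr w V, fun a ha => ?_⟩
  have h4 : img a (fun b : M => app (gr w V) b) = img a V :=
    seq_img_congr inferInstance hV (fun x hx => app_gr hV (hsub a ha x hx))
  rw [h4, app_gr hV ha]
  exact key a ha

theorem ma_injw (hseq : SEQStmt) (hcb : CBTStmt) : INJWStmt := by
  intro M _ _ w X hw hX
  have cb := hcb M
  obtain ⟨V, hV⟩ := hseq M w X (fun c b => ¬ E b c) hw inferInstance (by
    intro c hc hcc
    by_contra hcon
    refine hX (cb.sub hcc fun z hz => ?_)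
    by_contra hz'
    exact hcon ⟨z, hz, hz'⟩)
  refine ⟨V, fun a ha => (hV a ha).1, ?_⟩
  have key : ∀ a b, E a w → E b w → E a b → app V a ≠ app V b := by
    intro a b ha hb hab h
    refine (hV b hb).2 ?_
    rw [← h, mem_img' inferInstance]
    exact ⟨a, hab, rfl⟩
  intro a b ha hb hab
  rcases (hw.1.mem ha).tri (hw.1.mem hb) with h | h | h
  · exact key a b ha hb h
  · exact absurd h hab
  · exact fun h' => key b a hb ha h h'.symm

theorem ma_wf (hcb : CBTStmt) : WFStmt := by
  intro M _ _ w hw
  have cb := hcb M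
  have hsing : ∀ a : M, Cb (sing a) := fun a => cb.fin (by
    have : sing a = ins a emp := ext fun z => by simp
    rw [this]
    exact finF.ins finF.emp)
  have hcsuc : ∀ a : M, Cb a → Cb (suc a) := fun a ha => by
    show Cb (bun a (sing a))
    exact cb.bun ha (hsing a)
  have hsuc : ∀ {a : M}, E a w → E (suc a) w := by
    intro a ha
    rcases (Ord_suc (hw.1.mem ha)).tri hw.1 with h | h | h
    · exact h
    · exact absurd (h ▸ hcsuc a (hw.2.2 a ha)) hw.2.1
    · rw [mem_suc] at h
      rcases h with h | h
      · exact (not_mem_cycle h ha).elim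
      · rw [h] at ha
        exact (not_mem_self _ ha).elim
  have hbdd : ∀ {s : M}, Sub s w → Cb s → ∃ b, E b w ∧ ∀ a, E a s → E a b := by
    intro s hs hcs
    have ho : ∀ y, E y (img s (fun x : M => suc x)) → Ord y := by
      intro y hy
      rw [mem_img' inferInstance] at hy
      obtain ⟨x, hx, rfl⟩ := hy
      exact Ord_suc (hw.1.mem (hs x hx))
    have hb : Ord (sUn (img s (fun x : M => suc x))) := Ord_sUn ho
    have hcb' : Cb (sUn (img s (fun x : M => suc x))) :=
      cb.iUn (fun x : M => suc x) inferInstance hcs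
        (fun y hy => hcsuc y (hw.2.2 y (hs y hy)))
    refine ⟨sUn (img s (fun x : M => suc x)), ?_, fun a ha => ?_⟩
    · rcases hb.tri hw.1 with h | h | h
      · exact h
      · exact absurd (h ▸ hcb') hw.2.1
      · exfalso
        rw [mem_sUn] at h
        obtain ⟨y, hy, h⟩ := h
        rw [mem_img' inferInstance] at hy
        obtain ⟨x, hx, rfl⟩ := hy
        exact not_mem_cycle h (hsuc (hs x hx))
    · rw [mem_sUn]
      exact ⟨suc a, by rw [mem_img' inferInstance]; exact ⟨a, ha, rfl⟩, by simp⟩
  refine ⟨fun ha => hw.1.mem ha, hsuc, ?_, hbdd, ?_, ?_⟩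
  · intro n hn
    rcases (Ord_om (M := M)).tri hw.1 with h | h | h
    · exact hw.1.trans h hn
    · exact absurd (h ▸ cb.om) hw.2.1
    · exact absurd (cb.sub cb.om (Trans_om w h)) hw.2.1
  · intro s hs hcs b hb
    by_contra hcon
    refine hcs (cb.sub (hcsuc b (hw.2.2 b hb)) fun a ha => ?_)
    rw [mem_suc]
    rcases (hw.1.mem (hs a ha)).tri (hw.1.mem hb) with h | h | h
    · exact Or.inl h
    · exact Or.inr h
    · exact absurd ⟨a, ha, h⟩ hcon
  · intro s hs hu hcs
    obtain ⟨b, hb, h⟩ := hbdd hs hcs
    obtain ⟨a, ha, hba⟩ := hu b hb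
    exact not_mem_cycle hba (h a ha)

end SW
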