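import Pool.Agent.H13.MA.MStmts

/-!
Module URY: Urysohn functions in a second countable regular space of a model of ZFC.
-/

set_option linter.unusedVariables false
set_option synthInstance.maxSize 100000

namespace SW

section
variable {M : Type} [SetStr M] [ZF M]

/-- the set of values whose infimum is the Urysohn function -/
noncomputable def ury_SS (S : RNum M) (D x : M) : M :=
  sep S.R (fun r => r = S.u ∨ ∃ U, E (opair r U) D ∧ E x U)

instance (S : RNum M) {n : ℕ} {t s : (Fin n → M) → M} [ht : DfT t] [hs : DfT s] :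
    DfT (fun v => ury_SS S (t v) (s v)) :=
  DfT.comp2 (f := fun a b => ury_SS S a b) (by unfold ury_SS; infer_instance) ht hs

theorem ury_mem {S : RNum M} {D x r : M} : E r (ury_SS S D x) ↔
    E r S.R ∧ (r = S.u ∨ ∃ U, E (opair r U) D ∧ E x U) := by
  unfold ury_SS
  rw [mem_sep' inferInstance]

/-- the Urysohn function -/
noncomputable def ury_f (S : RNum M) (D x : M) : M := the (fun c => S.IsInf (ury_SS S D x) c)

instance (S : RNum M) {n : ℕ} {t s : (Fin n → M) → M} [ht : DfT t] [hs : DfT s] :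
    DfT (fun v => ury_f S (t v) (s v)) :=
  DfT.comp2 (f := fun a b => ury_f S a b) (by unfold ury_f; infer_instance) ht hs

/-- a real number of the model as an element of the type -/
def ury_t (S : RNum M) {a : M} (h : E a S.R) : S.T := ⟨a, h⟩

theorem ury_antisymm {S : RNum M} {a b : S.T} (h : a ≤ b) (h' : b ≤ a) : a.1 = b.1 := by
  rw [le_antisymm h h']

theorem ury_lt {S : RNum M} {a b : M} (ha : E a S.R) (hb : E b S.R) :
    S.lt a b ↔ ury_t S ha < ury_t S hb := by
  exact (RNum.coe_lt S (a := ury_t S ha) (b := ury_t S hb)).symm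

theorem ury_le {S : RNum M} {a b : M} (ha : E a S.R) (hb : E b S.R) :
    S.le a b ↔ ury_t S ha ≤ ury_t S hb := Iff.rfl

theorem ury_inf {S : RNum M} (hS : HFacts S) {D x : M}
    (hD : ∀ p, E p D → ∃ r U, E r S.R ∧ S.le S.z r ∧ p = opair r U) :
    S.IsInf (ury_SS S D x) (ury_f S D x) := by
  have h1 : ∃ c, S.IsInf (ury_SS S D x) c := by
    refine hS.inf (b := S.z) ?_ ⟨S.u, ?_⟩ S.ax.zero_mem ?_
    · intro r hr
      exact (ury_mem.1 hr).1
    · exact ury_mem.2 ⟨S.ax.one_mem, Or.inl rfl⟩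
    · intro a ha
      obtain ⟨ha, h | ⟨U, hU, hx⟩⟩ := ury_mem.1 ha
      · subst h
        exact (zero_le_one : (0 : S.T) ≤ 1)
      · obtain ⟨r, U', _, h, e⟩ := hD _ hU
        rw [opair_inj] at e
        rw [e.1]
        exact h
  obtain ⟨c, hc⟩ := h1
  unfold ury_f
  refine the_spec (p := fun c => S.IsInf (ury_SS S D x) c) ⟨c, hc, fun y hy => ?_⟩
  have h2 : ury_t S hy.1 ≤ ury_t S hc.1 := hc.2.2 y hy.1 hy.2.1
  have h3 : ury_t S hc.1 ≤ ury_t S hy.1 := hy.2.2 c hc.1 hc.2.1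
  exact ury_antisymm h2 h3

end

theorem ma_ury (hnrm : NRMStmt) (hdya : DYAStmt) (harc : ARCStmt) : URYStmt := by
  intro M _ _ S X T B hsp U0 U1 hU0 hU1 h01
  have hS : HFacts S := harc M S
  have hsub : ∀ U V : M, E U T → CIn X T U V → Sub U V := by
    intro U V hU h y hy
    exact h y (hsp.sub hU y hy) (fun W _ hyW => ⟨y, hyW, hy⟩)
  obtain ⟨D, hD, hD0, hD1, hDQ, hDd⟩ := hdya M S T U0 U1 (fun U V => E U T ∧ CIn X T U V)
    inferInstance
    (by
      rintro U V W ⟨hU, h1⟩ ⟨hV, h2⟩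
      refine ⟨hU, fun y hy hc => h2 y hy ?_⟩
      exact fun W' _ hyW => ⟨y, hyW, h1 y hy hc⟩)
    (by
      rintro U V hU hV ⟨_, h⟩
      obtain ⟨W, hW, h1, h2⟩ := hnrm M X T B hsp U V (hsp.sub hU) hV h
      exact ⟨W, hW, ⟨hU, h1⟩, ⟨hW, h2⟩⟩)
    hU0 hU1 ⟨hU0, h01⟩
  have hD' : ∀ p, E p D → ∃ r U, E r S.R ∧ S.le S.z r ∧ p = opair r U := by
    intro p hp
    obtain ⟨r, U, hr, h1, _, _, e⟩ := hD p hp
    exact ⟨r, U, hr, h1, e⟩
  have hDp : ∀ r U, E (opair r U) D → E r S.R ∧ S.le S.z r ∧ S.le r S.u ∧ E U T := by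
    intro r U h
    obtain ⟨r', U', h1, h2, h3, h4, e⟩ := hD _ h
    rw [opair_inj] at e
    obtain ⟨rfl, rfl⟩ := e
    exact ⟨h1, h2, h3, h4⟩
  let f : M → M := fun x => ury_f S D x
  have hf : Fn1 f := by
    show Fn1 (fun x : M => ury_f S D x)
    infer_instance
  have hinf : ∀ x, S.IsInf (ury_SS S D x) (f x) := fun x => ury_inf hS hD'
  have hR : ∀ x, E (f x) S.R := fun x => (hinf x).1
  have h0 : ∀ x, S.le S.z (f x) := by
    intro x
    refine (hinf x).2.2 S.z S.ax.zero_mem fun a ha => ?_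
    obtain ⟨ha, h | ⟨U, hU, hx⟩⟩ := ury_mem.1 ha
    · subst h
      exact (zero_le_one : (0 : S.T) ≤ 1)
    · exact (hDp _ _ hU).2.1
  have h1 : ∀ x, S.le (f x) S.u := fun x =>
    (hinf x).2.1 S.u (ury_mem.2 ⟨S.ax.one_mem, Or.inl rfl⟩)
  have hle : ∀ x r U, E (opair r U) D → E x U → S.le (f x) r := fun x r U h hx =>
    (hinf x).2.1 r (ury_mem.2 ⟨(hDp r U h).1, Or.inr ⟨U, h, hx⟩⟩)
  refine ⟨gr X f, ?_, ?_, ?_, ?_, ?_⟩
  · intro p hp
    rw [mem_gr' hf] at hp
    obtain ⟨y, hy, rfl⟩ := hp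
    exact mem_prod.2 ⟨hy, hR y⟩
  · intro x hx
    rw [app_gr hf hx]
    exact ⟨hR x, h0 x, h1 x⟩
  · intro x hx
    have hxX : E x X := hsp.sub hU0 x hx
    rw [app_gr hf hxX]
    have h2 : ury_t S (hR x) ≤ 0 := hle x S.z U0 hD0 hx
    have h3 : (0 : S.T) ≤ ury_t S (hR x) := h0 x
    exact ury_antisymm h2 h3
  · intro x hxX hx
    rw [app_gr hf hxX]
    have h2 : ury_t S (hR x) ≤ 1 := h1 x
    have h3 : (1 : S.T) ≤ ury_t S (hR x) := by
      refine (hinf x).2.2 S.u S.ax.one_mem fun a ha => ?_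
      obtain ⟨ha, h | ⟨U, hU, hxU⟩⟩ := ury_mem.1 ha
      · rw [h]
        exact (le_refl (1 : S.T))
      · by_contra hcon
        have h4 : ury_t S ha < 1 := not_le.1 hcon
        have h5 := hDQ a U S.u U1 hU hD1 (RNum.coe_lt S |>.1 h4)
        exact hx (hsub U U1 (hDp a U hU).2.2.2 h5.2 x hxU)
    exact ury_antisymm h2 h3
  · intro x e hx he hpos
    let F : S.T := ury_t S (hR x)
    let e' : S.T := ury_t S he
    have he' : (0 : S.T) < e' := (RNum.coe_lt S).2 hpos
    -- upper side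
    have hW1 : ∃ W, E W T ∧ E x W ∧ ∀ y, E y W → S.lt (f y) (S.add (f x) e) := by
      by_cases hc : (1 : S.T) < F + e'
      · refine ⟨X, hsp.top, hx, fun y hy => ?_⟩
        have h2 : ury_t S (hR y) ≤ 1 := h1 y
        exact (RNum.coe_lt S).1 (lt_of_le_of_lt h2 hc)
      · have hc' : F + e' ≤ 1 := not_lt.1 hc
        have h2 : ∃ r, E r (ury_SS S D x) ∧ S.lt r (S.add (f x) e) := by
          by_contra hcon
          have h3 : F + e' ≤ F := by
            refine (hinf x).2.2 (S.add (f x) e) (S.add_mem (hR x) he) fun a ha => ?_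
            by_contra h4
            refine hcon ⟨a, ha, ?_⟩
            have h5 : ury_t S ((ury_mem.1 ha).1) < F + e' := not_le.1 h4
            exact (RNum.coe_lt S).1 h5
          linarith
        obtain ⟨r, hr, hrl⟩ := h2
        obtain ⟨hrR, h | ⟨U, hU, hxU⟩⟩ := ury_mem.1 hr
        · exfalso
          subst h
          have h3 : (1 : S.T) < F + e' := (RNum.coe_lt S).2 hrl
          exact hc h3
        · refine ⟨U, (hDp r U hU).2.2.2, hxU, fun y hy => ?_⟩
          have h3 : ury_t S (hR y) ≤ ury_t S hrR := hle y r U hU hy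
          have h4 : ury_t S hrR < F + e' := (RNum.coe_lt S).2 hrl
          exact (RNum.coe_lt S).1 (lt_of_le_of_lt h3 h4)
    -- lower side
    have hW2 : ∃ W, E W T ∧ E x W ∧ ∀ y, E y W → S.lt (f x) (S.add (f y) e) := by
      by_cases hc : F < e'
      · refine ⟨X, hsp.top, hx, fun y hy => ?_⟩
        have h2 : (0 : S.T) ≤ ury_t S (hR y) := h0 y
        have h3 : F < ury_t S (hR y) + e' := by linarith
        exact (RNum.coe_lt S).1 h3
      · have hc' : 0 ≤ F - e' := by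
          have := not_lt.1 hc
          linarith
        have hF1 : F ≤ 1 := h1 x
        obtain ⟨r, U, hrU, hr1, hr2⟩ := hDd (F - e').1 F.1 (F - e').2 F.2 hc'
          ((RNum.coe_lt S).1 (by linarith)) hF1
        obtain ⟨hrR, hr0, _, hUT⟩ := hDp r U hrU
        obtain ⟨r', U', hrU', hr1', hr2'⟩ := hDd r F.1 hrR F.2 hr0 hr2 hF1
        obtain ⟨hrR', _, _, hUT'⟩ := hDp r' U' hrU'
        have h2 : ¬ Clo T U x := by
          intro hcl
          have h3 := (hDQ r U r' U' hrU hrU' hr1').2 x hx hcl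
          have h4 : F ≤ ury_t S hrR' := hle x r' U' hrU' h3
          have h5 : ury_t S hrR' < F := (RNum.coe_lt S).2 hr2'
          exact absurd h4 (not_le.2 h5)
        unfold Clo at h2
        push Not at h2
        obtain ⟨W, hW, hxW, hdis⟩ := h2
        refine ⟨W, hW, hxW, fun y hy => ?_⟩
        have h6 : ury_t S hrR ≤ ury_t S (hR y) := by
          refine (hinf y).2.2 r hrR fun a ha => ?_
          obtain ⟨haR, h | ⟨V, hV, hyV⟩⟩ := ury_mem.1 ha
          · rw [h]
            exact (hDp r U hrU).2.2.1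
          · by_contra h7
            have h8 : ury_t S haR < ury_t S hrR := not_le.1 h7
            have h9 := hDQ a V r U hV hrU ((RNum.coe_lt S).1 h8)
            exact hdis y hy (hsub V U (hDp a V hV).2.2.2 h9.2 y hyV)
        have h7 : F - e' < ury_t S hrR := (RNum.coe_lt S).2 hr1
        have h8 : F < ury_t S (hR y) + e' := by linarith
        exact (RNum.coe_lt S).1 h8
    obtain ⟨W1, hW1T, hxW1, hW1⟩ := hW1
    obtain ⟨W2, hW2T, hxW2, hW2⟩ := hW2
    refine ⟨inter W1 W2, hsp.int hW1T hW2T, mem_inter.2 ⟨hxW1, hxW2⟩, fun y hy => ?_⟩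
    have hyX : E y X := hsp.sub hW1T y (mem_inter.1 hy).1
    rw [app_gr hf hx, app_gr hf hyX]
    exact ⟨hW2 y (mem_inter.1 hy).2, hW1 y (mem_inter.1 hy).1⟩

end SW
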